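import Mathlib

/-!
# The cap argument modulo four

Let `E` be a `0/1` matrix all of whose `(d + 2) × (d + 2)` minors vanish modulo `4`, with pairwise
incomparable nonzero rows, containing a unitriangular `(d + 1) × (d + 1)` submatrix. Then `E` has at
most `2 ^ d` rows.
-/

namespace Pool.Agent.NH72.PSD

open Matrix Finset

theorem bordered {ι κ : Type*} {d : ℕ} (E : Matrix ι κ (ZMod 4))
    (hminor : ∀ (ρ : Fin (d + 2) → ι) (γ : Fin (d + 2) → κ), (E.submatrix ρ γ).det = 0)
    (ρ : Fin (d + 1) → ι) (γ : Fin (d + 1) → κ) (hu : IsUnit (E.submatrix ρ γ).det) (j : κ) :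
    ∃ c : Fin (d + 1) → ZMod 4, ∀ k, E k j = ∑ l, E k (γ l) * c l := by
  classical
  set A : Matrix (Fin (d + 1)) (Fin (d + 1)) (ZMod 4) := E.submatrix ρ γ with hA
  have : Invertible A := A.invertibleOfIsUnitDet hu
  refine ⟨⅟A *ᵥ (fun l => E (ρ l) j), fun k => ?_⟩
  have hm : ∀ (ρ' : Fin (d + 1) ⊕ Fin 1 → ι) (γ' : Fin (d + 1) ⊕ Fin 1 → κ),
      (E.submatrix ρ' γ').det = 0 := by
    intro ρ' γ'
    have h := hminor (ρ' ∘ (finSumFinEquiv (m := d + 1) (n := 1)).symm)
      (γ' ∘ (finSumFinEquiv (m := d + 1) (n := 1)).symm)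
    rw [← Matrix.submatrix_submatrix, Matrix.det_submatrix_equiv_self] at h
    exact h
  have h1 := hm (Sum.elim ρ (fun (_ : Fin 1) => k)) (Sum.elim γ (fun (_ : Fin 1) => j))
  have hb : E.submatrix (Sum.elim ρ (fun (_ : Fin 1) => k)) (Sum.elim γ (fun (_ : Fin 1) => j)) =
      Matrix.fromBlocks A (Matrix.of fun l (_ : Fin 1) => E (ρ l) j)
        (Matrix.of fun (_ : Fin 1) l => E k (γ l)) (Matrix.of fun (_ _ : Fin 1) => E k j) := by
    ext (x | x) (y | y) <;> simp [hA]
  rw [hb, Matrix.det_fromBlocks₁₁] at h1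
  have h2 : (Matrix.of (fun (_ _ : Fin 1) => E k j) - Matrix.of (fun (_ : Fin 1) l => E k (γ l)) * ⅟A *
      Matrix.of (fun l (_ : Fin 1) => E (ρ l) j)).det = 0 := by
    have := hu.mul_right_eq_zero.1 h1
    exact this
  rw [Matrix.det_fin_one] at h2
  simp only [Matrix.sub_apply, Matrix.of_apply] at h2
  rw [sub_eq_zero] at h2
  rw [h2, Matrix.mul_assoc, Matrix.mul_apply]
  refine Finset.sum_congr rfl fun l _ => ?_
  simp only [Matrix.of_apply]
  congr 1

theorem zmod4_cases : ∀ x y z : ZMod 4, (x = 0 ∨ x = 1) → (y = 0 ∨ y = 1) → (z = 0 ∨ z = 1) →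
    (ZMod.castHom (show 2 ∣ 4 by norm_num) (ZMod 2)) x + (ZMod.castHom (show 2 ∣ 4 by norm_num) (ZMod 2)) y
      = (ZMod.castHom (show 2 ∣ 4 by norm_num) (ZMod 2)) z → z = x + y - 2 * (x * y) := by
  decide

theorem zmod4_inj : ∀ x y : ZMod 4, (x = 0 ∨ x = 1) → (y = 0 ∨ y = 1) →
    (ZMod.castHom (show 2 ∣ 4 by norm_num) (ZMod 2)) x = (ZMod.castHom (show 2 ∣ 4 by norm_num) (ZMod 2)) y
      → x = y := by
  decide

theorem zmod4_one : ∀ x y z : ZMod 4, (x = 0 ∨ x = 1) → (y = 0 ∨ y = 1) → (z = 0 ∨ z = 1) →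
    z = x + y - 2 * (1 * y) → x = 0 → y = 0 := by
  decide

/-- **The cap bound.** -/
theorem cap_bound {ι κ : Type*} [Fintype ι] {d : ℕ} (E : Matrix ι κ (ZMod 4))
    (h01 : ∀ i j, E i j = 0 ∨ E i j = 1)
    (hminor : ∀ (ρ : Fin (d + 2) → ι) (γ : Fin (d + 2) → κ), (E.submatrix ρ γ).det = 0)
    (hinc : ∀ i k, (∀ j, E i j = 0 → E k j = 0) → i = k)
    (hne : ∀ i, ∃ j, E i j = 1)
    (ρ : Fin (d + 1) → ι) (γ : Fin (d + 1) → κ)
    (htri : ∀ l m, m < l → E (ρ l) (γ m) = 0) (hdiag : ∀ l, E (ρ l) (γ l) = 1) :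
    Fintype.card ι ≤ 2 ^ d := by
  classical
  have hdet : (E.submatrix ρ γ).det = 1 := by
    rw [Matrix.det_of_upperTriangular]
    · simp [hdiag]
    · intro l m hlm
      exact htri l m hlm
  have hlin := bordered E hminor ρ γ (by rw [hdet]; exact isUnit_one)
  let π : ZMod 4 →+* ZMod 2 := ZMod.castHom (show 2 ∣ 4 by norm_num) (ZMod 2)
  let Φ : ι → (Fin (d + 1) → ZMod 2) := fun k l => π (E k (γ l))
  have hrow : ∀ k k', (∀ l, E k (γ l) = E k' (γ l)) → k = k' := by
    intro k k' h
    apply hinc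
    intro j hj
    obtain ⟨c, hc⟩ := hlin j
    rw [hc k'] ; rw [hc k] at hj
    rw [← hj]
    exact Finset.sum_congr rfl fun l _ => by rw [h l]
  have hinj : Function.Injective Φ := by
    intro k k' h
    apply hrow
    intro l
    exact zmod4_inj _ _ (h01 _ _) (h01 _ _) (congrFun h l)
  set i := ρ (Fin.last d) with hi
  have hi0 : ∀ m, m ≠ Fin.last d → E i (γ m) = 0 := by
    intro m hm
    exact htri _ _ (lt_of_le_of_ne (Fin.le_last m) hm)
  have hi1 : E i (γ (Fin.last d)) = 1 := hdiag _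
  -- the main relation
  have key : ∀ k k', Φ k + Φ i = Φ k' → ∀ j, E k' j = E k j + E i j - 2 * (E k (γ (Fin.last d)) * E i j) := by
    intro k k' h j
    have hg : ∀ l, E k' (γ l) = E k (γ l) + E i (γ l) - 2 * (E k (γ l) * E i (γ l)) := fun l =>
      zmod4_cases _ _ _ (h01 _ _) (h01 _ _) (h01 _ _) (congrFun h l)
    obtain ⟨c, hc⟩ := hlin j
    have hci : E i j = c (Fin.last d) := by
      rw [hc i, Finset.sum_eq_single (Fin.last d)]
      · rw [hi1, one_mul]
      · intro m _ hm
        rw [hi0 m hm, zero_mul]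
      · intro h; exact absurd (Finset.mem_univ _) h
    have hs : ∑ l, (E k (γ l) * E i (γ l)) * c l = E k (γ (Fin.last d)) * E i j := by
      rw [Finset.sum_eq_single (Fin.last d)]
      · rw [hi1, hci, mul_one]
      · intro m _ hm
        rw [hi0 m hm]; ring
      · intro h; exact absurd (Finset.mem_univ _) h
    rw [hc k', ← hs, hc k, hc i, Finset.mul_sum, ← Finset.sum_add_distrib, ← Finset.sum_sub_distrib]
    refine Finset.sum_congr rfl fun l _ => ?_
    rw [hg l]; ring
  have hcase : ∀ k k', Φ k + Φ i = Φ k' → E k (γ (Fin.last d)) = 1 → False := by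
    intro k k' h h1
    have hr := key k k' h
    have hki : k = i := by
      apply hinc
      intro j hj
      have := hr j
      rw [h1] at this
      exact zmod4_one _ _ _ (h01 _ _) (h01 _ _) (h01 _ _) this hj
    obtain ⟨j, hj⟩ := hne k'
    have := hr j
    rw [hki] at this
    rw [hi1, hj] at this
    have h0 := h01 i j
    revert this h0
    generalize E i j = x
    revert x
    decide
  have hdis : ∀ k k', Φ k + Φ i ≠ Φ k' := by
    intro k k' h
    rcases h01 k (γ (Fin.last d)) with h0 | h1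
    · -- swap the roles
      have h' : Φ k' + Φ i = Φ k := by
        rw [← h, add_assoc]
        have : Φ i + Φ i = 0 := by
          ext l
          simp only [Pi.add_apply, Pi.zero_apply]
          generalize Φ i l = x
          revert x; decide
        rw [this, add_zero]
      have hr := key k k' h (γ (Fin.last d))
      rw [h0, hi1] at hr
      apply hcase k' k h'
      rw [hr]; ring
    · exact hcase k k' h h1
  -- counting
  let S : Finset (Fin (d + 1) → ZMod 2) := Finset.univ.image Φ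
  let S' : Finset (Fin (d + 1) → ZMod 2) := Finset.univ.image fun k => Φ k + Φ i
  have hS : S.card = Fintype.card ι := by
    rw [Finset.card_image_of_injective _ hinj, Finset.card_univ]
  have hS' : S'.card = Fintype.card ι := by
    rw [Finset.card_image_of_injective _ (fun a b h => hinj (add_right_cancel h)), Finset.card_univ]
  have hd : Disjoint S S' := by
    rw [Finset.disjoint_left]
    intro x hx hx'
    simp only [S, S', Finset.mem_image, Finset.mem_univ, true_and] at hx hx'
    obtain ⟨k', rfl⟩ := hx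
    obtain ⟨k, hk⟩ := hx'
    exact hdis k k' hk
  have hc : (S ∪ S').card ≤ Fintype.card (Fin (d + 1) → ZMod 2) := Finset.card_le_univ _
  rw [Finset.card_union_of_disjoint hd, hS, hS', Fintype.card_fun, ZMod.card, Fintype.card_fin,
    pow_succ] at hc
  omega

end Pool.Agent.NH72.PSD
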