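import Pool.Agent.NH72.PSD.Geom

/-!
# Flags: from a face through a vertex to a facet of the face through this vertex
-/

namespace Pool.Agent.NH72.PSD

open Matrix Finset Module

variable {d n f : ℕ}

theorem flag_step {v : Fin n → Fin d → ℝ} {a : Fin f → Fin d → ℝ} {b : Fin f → ℝ}
    (h : Poly v a b) {C : Set (Fin n)} (hC : Closed v a b C) {i0 : Fin n} (hi0 : i0 ∈ C) {w : ℕ}
    (hw : finrank ℝ (W v C) = w + 1) :
    ∃ j, sl a b j (v i0) = 0 ∧ (∃ k ∈ C, sl a b j (v k) ≠ 0) ∧
      finrank ℝ (W v (cut v a b C j)) = w := by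
  classical
  -- the relevant inequalities
  let J : Finset (Fin f) := Finset.univ.filter fun j =>
    sl a b j (v i0) = 0 ∧ ∃ k ∈ C, sl a b j (v k) ≠ 0
  have hJ : J.Nonempty := by
    by_contra hne
    rw [Finset.not_nonempty_iff_eq_empty] at hne
    have hall : ∀ j, sl a b j (v i0) = 0 → ∀ k ∈ C, sl a b j (v k) = 0 := by
      intro j hj k hk
      by_contra h0
      have : j ∈ J := by
        simp only [J, Finset.mem_filter, Finset.mem_univ, true_and]
        exact ⟨hj, k, hk, h0⟩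
      rw [hne] at this
      exact absurd this (Finset.notMem_empty j)
    have hC1 : C = {i0} := by
      ext k
      constructor
      · intro hk
        exact (h.incomp i0 k fun j hj => hall j hj k hk).symm
      · rintro rfl; exact hi0
    rw [hC1] at hw
    unfold W at hw
    rw [Set.image_singleton, vectorSpan_singleton, finrank_bot] at hw
    omega
  obtain ⟨j, hjJ, hjmax⟩ := Finset.exists_max_image J
    (fun j => (Finset.univ.filter fun k => k ∈ cut v a b C j).card) hJ
  have hjJ' := hjJ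
  simp only [J, Finset.mem_filter, Finset.mem_univ, true_and] at hjJ'
  obtain ⟨hj0, k0, hk0, hk0'⟩ := hjJ'
  refine ⟨j, hj0, ⟨k0, hk0, hk0'⟩, ?_⟩
  set D := cut v a b C j with hD
  have hiD : i0 ∈ D := ⟨hi0, hj0⟩
  have hDC : D ⊆ C := fun k hk => hk.1
  -- upper bound
  have hlt : W v D < W v C := by
    refine lt_of_le_of_ne (W_mono v hDC) fun he => ?_
    have h1 : v k0 - v i0 ∈ W v D := by rw [he]; exact sub_mem_W v hi0 hk0
    have h2 := dot_eq_zero (a := a) (b := b) (C := D) j (fun i hi => hi.2) _ h1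
    apply hk0'
    unfold sl at hj0 ⊢
    rw [dotProduct_sub] at h2
    linarith
  have hup : finrank ℝ (W v D) < w + 1 := by
    rw [← hw]; exact Submodule.finrank_lt_finrank_of_lt hlt
  by_contra hne
  have hlow : finrank ℝ (W v D) < w := lt_of_le_of_ne (by omega) hne
  -- maximality
  have hmax : ∀ g, (∀ k ∈ D, sl a b g (v k) = 0) → (∃ k ∈ C, sl a b g (v k) ≠ 0) →
      cut v a b C g = D := by
    intro g hg1 hg2
    have hgJ : g ∈ J := by
      simp only [J, Finset.mem_filter, Finset.mem_univ, true_and]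
      exact ⟨hg1 i0 hiD, hg2⟩
    have hle := hjmax g hgJ
    have hsub : (Finset.univ.filter fun k => k ∈ D) ⊆
        (Finset.univ.filter fun k => k ∈ cut v a b C g) := by
      intro k hk
      simp only [Finset.mem_filter, Finset.mem_univ, true_and] at hk ⊢
      exact ⟨hk.1, hg1 k hk⟩
    have heq := Finset.eq_of_subset_of_card_le hsub hle
    ext k
    have := Finset.ext_iff.1 heq k
    simp only [Finset.mem_filter, Finset.mem_univ, true_and] at this
    exact this.symm
  -- the vectors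
  set Cf : Finset (Fin n) := Finset.univ.filter fun k => k ∈ C with hCf
  set y0 : Fin d → ℝ := ∑ k ∈ Cf, (v k - v i0) with hy0
  have hy0C : y0 ∈ W v C := by
    refine Submodule.sum_mem _ fun k hk => sub_mem_W v hi0 ?_
    simpa [hCf] using hk
  have hy0dot : ∀ g, sl a b g (v i0) = 0 → a g ⬝ᵥ y0 = - ∑ k ∈ Cf, sl a b g (v k) := by
    intro g hg
    rw [hy0, dotProduct_sum, ← Finset.sum_neg_distrib]
    refine Finset.sum_congr rfl fun k _ => ?_
    unfold sl at hg ⊢
    rw [dotProduct_sub]; linarith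
  have hy0neg : ∀ g, (∀ k ∈ D, sl a b g (v k) = 0) → (∃ k ∈ C, sl a b g (v k) ≠ 0) →
      a g ⬝ᵥ y0 < 0 := by
    rintro g hg1 ⟨k, hk, hk'⟩
    rw [hy0dot g (hg1 i0 hiD), neg_lt_zero]
    refine Finset.sum_pos' (fun k _ => h.nonneg g k) ⟨k, by simpa [hCf] using hk, ?_⟩
    exact lt_of_le_of_ne (h.nonneg g k) (Ne.symm hk')
  have hex : ∃ y2 ∈ W v C, y2 ∉ W v D ⊔ Submodule.span ℝ {y0} := by
    by_contra hcon
    push Not at hcon
    have h1 : W v C ≤ W v D ⊔ Submodule.span ℝ {y0} := hcon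
    have h2 := Submodule.finrank_mono h1
    have h3 := Submodule.finrank_add_le_finrank_add_finrank (W v D) (Submodule.span ℝ {y0})
    have h4 : finrank ℝ (Submodule.span ℝ {y0}) ≤ 1 :=
      (finrank_span_le_card (R := ℝ) ({y0} : Set (Fin d → ℝ))).trans (by simp)
    omega
  obtain ⟨y2, hy2, hy2'⟩ := hex
  let K : Finset (Fin f) := Finset.univ.filter fun g =>
    (∀ k ∈ D, sl a b g (v k) = 0) ∧ ∃ k ∈ C, sl a b g (v k) ≠ 0
  have hjK : j ∈ K := by
    simp only [K, Finset.mem_filter, Finset.mem_univ, true_and]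
    exact ⟨fun k hk => hk.2, k0, hk0, hk0'⟩
  obtain ⟨g, hgK, hgmax⟩ := Finset.exists_max_image K
    (fun g => (a g ⬝ᵥ y2) / (-(a g ⬝ᵥ y0))) ⟨j, hjK⟩
  set t : ℝ := (a g ⬝ᵥ y2) / (-(a g ⬝ᵥ y0)) with ht
  have hgK' := hgK
  simp only [K, Finset.mem_filter, Finset.mem_univ, true_and] at hgK'
  set y : Fin d → ℝ := y2 + t • y0 with hy
  have hyC : y ∈ W v C := Submodule.add_mem _ hy2 (Submodule.smul_mem _ _ hy0C)
  have hyK : ∀ g' ∈ K, a g' ⬝ᵥ y ≤ 0 := by
    intro g' hg'
    have h1 := hgmax g' hg'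
    simp only [K, Finset.mem_filter, Finset.mem_univ, true_and] at hg'
    have h2 := hy0neg g' hg'.1 hg'.2
    rw [hy, dotProduct_add, dotProduct_smul, smul_eq_mul]
    rw [div_le_iff₀ (by linarith)] at h1
    linarith
  have hyg : a g ⬝ᵥ y = 0 := by
    have h2 := hy0neg g hgK'.1 hgK'.2
    rw [hy, dotProduct_add, dotProduct_smul, smul_eq_mul, ht, div_neg, neg_mul,
      div_mul_cancel₀ _ h2.ne, add_neg_cancel]
  have hyB : y ∉ W v D := by
    intro hmem
    apply hy2'
    have : y2 = y - t • y0 := by rw [hy]; simp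
    rw [this]
    exact Submodule.sub_mem _ (Submodule.mem_sup_left hmem)
      (Submodule.mem_sup_right (Submodule.smul_mem _ _ (Submodule.mem_span_singleton_self y0)))
  -- the centroid of D
  set Df : Finset (Fin n) := Finset.univ.filter fun k => k ∈ D with hDf
  have hDpos : (0 : ℝ) < Df.card := by
    have : 0 < Df.card := Finset.card_pos.2 ⟨i0, by simpa [hDf] using hiD⟩
    exact_mod_cast this
  obtain ⟨u, hu⟩ : ∃ u : Fin n → ℝ, ∀ k, u k = if k ∈ Df then (Df.card : ℝ)⁻¹ else 0 :=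
    ⟨_, fun _ => rfl⟩
  have hmemD : ∀ k, k ∈ Df ↔ k ∈ D := fun k => by simp [hDf]
  have hu0 : ∀ k, 0 ≤ u k := by
    intro k
    rw [hu]
    split_ifs
    · positivity
    · exact le_rfl
  have hu1 : ∑ k, u k = 1 := by
    simp only [hu]
    rw [← Finset.sum_filter, Finset.sum_const, Finset.filter_mem_eq_inter, Finset.univ_inter,
      nsmul_eq_mul, mul_inv_cancel₀ hDpos.ne']
  have huD : ∀ k, u k ≠ 0 → k ∈ D := by
    intro k hk
    rw [hu] at hk
    by_contra hk'
    apply hk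
    rw [if_neg]
    rwa [hmemD]
  set z : Fin d → ℝ := ∑ k, u k • v k with hz
  have hzsl : ∀ g', sl a b g' z = ∑ k, u k * sl a b g' (v k) := fun g' => sl_sum a b g' v u hu1
  have hz0 : ∀ g', 0 ≤ sl a b g' z := fun g' => by
    rw [hzsl]
    exact Finset.sum_nonneg fun k _ => mul_nonneg (hu0 k) (h.nonneg g' k)
  have hzt : ∀ g', sl a b g' z = 0 → ∀ k ∈ D, sl a b g' (v k) = 0 := by
    intro g' hg' k hk
    rw [hzsl] at hg'
    have := (Finset.sum_eq_zero_iff_of_nonneg
      (fun k _ => mul_nonneg (hu0 k) (h.nonneg g' k))).1 hg' k (Finset.mem_univ k)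
    rcases mul_eq_zero.1 this with h' | h'
    · exfalso
      rw [hu, if_pos ((hmemD k).2 hk)] at h'
      exact absurd h' (inv_ne_zero hDpos.ne')
    · exact h'
  obtain ⟨ε, hε, hstep⟩ := small_step a b z y hz0 (by
    intro g' hg'
    by_cases hc : ∃ k ∈ C, sl a b g' (v k) ≠ 0
    · refine hyK g' ?_
      simp only [K, Finset.mem_filter, Finset.mem_univ, true_and]
      exact ⟨hzt g' hg', hc⟩
    · push Not at hc
      exact (dot_eq_zero g' hc y hyC).le)
  obtain ⟨w', hw0, hw1, hw2⟩ := exists_weights v _ ((h.hull _).1 hstep)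
  have hzu : ∀ g', (∀ k ∈ D, sl a b g' (v k) = 0) → sl a b g' z = 0 := by
    intro g' hg'
    rw [hzsl]
    refine Finset.sum_eq_zero fun k _ => ?_
    by_cases hk : u k = 0
    · rw [hk, zero_mul]
    · rw [hg' k (huD k hk), mul_zero]
  have hsup : ∀ g', (∀ k ∈ D, sl a b g' (v k) = 0) → a g' ⬝ᵥ y = 0 →
      ∀ k, w' k ≠ 0 → sl a b g' (v k) = 0 := by
    intro g' hg' hg'' k hk
    refine h.support g' w' hw0 hw1 ?_ k hk
    rw [hw2, sl_add, hzu g' hg', dotProduct_smul, hg'', smul_zero, sub_zero]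
  have hwD : ∀ k, w' k ≠ 0 → k ∈ D := by
    intro k hk
    have hkC : k ∈ C := by
      refine hC k fun g' hg' => ?_
      exact hsup g' (fun i hi => hg' i (hDC hi)) (dot_eq_zero g' hg' y hyC) k hk
    have hkg : sl a b g (v k) = 0 := hsup g hgK'.1 hyg k hk
    have : k ∈ cut v a b C g := ⟨hkC, hkg⟩
    rwa [hmax g hgK'.1 hgK'.2] at this
  have hmem := comb_mem (v := v) (D := D) w' u hwD huD hw1 hu1 i0 hiD
  rw [hw2, ← hz, add_sub_cancel_left] at hmem
  exact hyB ((Submodule.smul_mem_iff _ hε.ne').1 hmem)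

/-- flags of faces through the vertex `i0` -/
theorem flag {v : Fin n → Fin d → ℝ} {a : Fin f → Fin d → ℝ} {b : Fin f → ℝ}
    (h : Poly v a b) (i0 : Fin n) (w : ℕ) : ∀ (C : Set (Fin n)), Closed v a b C → i0 ∈ C →
    finrank ℝ (W v C) = w → ∃ (ρ : Fin w → Fin n) (γ : Fin w → Fin f), (∀ l, ρ l ∈ C) ∧
      (∀ l, sl a b (γ l) (v (ρ l)) ≠ 0) ∧ (∀ l m, m < l → sl a b (γ m) (v (ρ l)) = 0) ∧
      ∀ m, sl a b (γ m) (v i0) = 0 := by
  induction w with
  | zero =>
    intro C _ _ _
    exact ⟨Fin.elim0, Fin.elim0, fun l => l.elim0, fun l => l.elim0, fun l => l.elim0,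
      fun l => l.elim0⟩
  | succ w ih =>
    intro C hC hi0 hw
    obtain ⟨j, hj, ⟨k, hk, hk'⟩, hfin⟩ := flag_step h hC hi0 hw
    obtain ⟨ρ, γ, h1, h2, h3, h4⟩ := ih (cut v a b C j) (closed_cut hC j) ⟨hi0, hj⟩ hfin
    refine ⟨Fin.cons k ρ, Fin.cons j γ, ?_, ?_, ?_, ?_⟩
    · intro l
      refine Fin.cases ?_ (fun l => ?_) l
      · exact hk
      · exact (h1 l).1
    · intro l
      refine Fin.cases ?_ (fun l => ?_) l
      · exact hk'
      · exact h2 l
    · intro l m
      refine Fin.cases ?_ (fun l => ?_) l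
      · intro hm; exact absurd hm (Fin.not_lt_zero m)
      · refine Fin.cases ?_ (fun m => ?_) m
        · intro _; exact (h1 l).2
        · intro hm
          exact h3 l m (Fin.succ_lt_succ_iff.1 hm)
    · intro m
      refine Fin.cases ?_ (fun m => ?_) m
      · exact hj
      · exact h4 m

/-- every vertex misses a facet, if the dimension is positive -/
theorem exists_miss {v : Fin n → Fin d → ℝ} {a : Fin f → Fin d → ℝ} {b : Fin f → ℝ}
    (h : Poly v a b) (hd : 1 ≤ d) (hfull : finrank ℝ (W v Set.univ) = d) (i : Fin n) :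
    ∃ j, sl a b j (v i) ≠ 0 := by
  by_contra hcon
  push Not at hcon
  have hall : ∀ k : Fin n, k = i := fun k => h.incomp k i fun j _ => hcon j
  have h1 : v '' (Set.univ : Set (Fin n)) = {v i} := by
    ext x
    constructor
    · rintro ⟨k, _, rfl⟩
      rw [hall k]; rfl
    · rintro rfl; exact ⟨i, Set.mem_univ _, rfl⟩
  unfold W at hfull
  rw [h1, vectorSpan_singleton, finrank_bot] at hfull
  omega

/-- a unitriangular pattern of size `d + 1` -/
theorem full_flag {v : Fin n → Fin d → ℝ} {a : Fin f → Fin d → ℝ} {b : Fin f → ℝ}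
    (h : Poly v a b) (hd : 1 ≤ d) (hfull : finrank ℝ (W v Set.univ) = d) (i0 : Fin n) :
    ∃ (ρ : Fin (d + 1) → Fin n) (γ : Fin (d + 1) → Fin f),
      (∀ l, sl a b (γ l) (v (ρ l)) ≠ 0) ∧ (∀ l m, m < l → sl a b (γ m) (v (ρ l)) = 0) := by
  obtain ⟨ρ, γ, -, h2, h3, h4⟩ := flag h i0 d Set.univ (closed_univ v a b) (Set.mem_univ _) hfull
  obtain ⟨j, hj⟩ := exists_miss h hd hfull i0
  refine ⟨Fin.snoc ρ i0, Fin.snoc γ j, ?_, ?_⟩
  · intro l
    refine Fin.lastCases ?_ (fun l => ?_) l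
    · simpa using hj
    · simpa using h2 l
  · intro l m
    refine Fin.lastCases ?_ (fun m => ?_) m
    · intro hm; exact absurd hm (not_lt.2 (Fin.le_last l))
    · refine Fin.lastCases ?_ (fun l => ?_) l
      · intro _; simpa using h4 m
      · intro hm
        simpa using h3 l m (by simpa using hm)

end Pool.Agent.NH72.PSD
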