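import Mathlib

/-!
# Flags of faces of a polytope, through vertices and facets only
-/

namespace Pool.Agent.NH72.PSD

open Matrix Finset Module

variable {d n f : ℕ}

/-- The slack. -/
def sl (a : Fin f → Fin d → ℝ) (b : Fin f → ℝ) (j : Fin f) (x : Fin d → ℝ) : ℝ := b j - a j ⬝ᵥ x

/-- the vertex set `C` spans the space of differences `W C` -/
def W (v : Fin n → Fin d → ℝ) (C : Set (Fin n)) : Submodule ℝ (Fin d → ℝ) :=
  vectorSpan ℝ (v '' C)

/-- A polytope given by its vertices and by inequalities. -/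
structure Poly (v : Fin n → Fin d → ℝ) (a : Fin f → Fin d → ℝ) (b : Fin f → ℝ) : Prop where
  hull : ∀ x, (∀ j, 0 ≤ sl a b j x) ↔ x ∈ convexHull ℝ (Set.range v)
  vinj : Function.Injective v
  vert : ∀ i, v i ∈ (convexHull ℝ (Set.range v)).extremePoints ℝ

theorem sl_add (a : Fin f → Fin d → ℝ) (b : Fin f → ℝ) (j : Fin f) (x y : Fin d → ℝ) :
    sl a b j (x + y) = sl a b j x - a j ⬝ᵥ y := by
  unfold sl
  rw [dotProduct_add]; ring

theorem exists_weights (v : Fin n → Fin d → ℝ) (x : Fin d → ℝ)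
    (hx : x ∈ convexHull ℝ (Set.range v)) :
    ∃ w : Fin n → ℝ, (∀ i, 0 ≤ w i) ∧ ∑ i, w i = 1 ∧ ∑ i, w i • v i = x := by
  classical
  rw [convexHull_range_eq_exists_affineCombination] at hx
  obtain ⟨s, w, h0, h1, h2⟩ := hx
  refine ⟨fun i => if i ∈ s then w i else 0, ?_, ?_, ?_⟩
  · intro i
    by_cases hi : i ∈ s
    · simp only [hi, if_true]; exact h0 i hi
    · simp [hi]
  · rw [← h1, ← Finset.sum_filter]
    congr 1
    ext i; simp
  · rw [← h2, Finset.affineCombination_eq_linear_combination _ _ _ h1]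
    simp only [ite_smul, zero_smul]
    rw [← Finset.sum_filter]
    congr 1
    ext i; simp

theorem sl_sum (a : Fin f → Fin d → ℝ) (b : Fin f → ℝ) (j : Fin f) (v : Fin n → Fin d → ℝ)
    (w : Fin n → ℝ) (h1 : ∑ i, w i = 1) :
    sl a b j (∑ i, w i • v i) = ∑ i, w i * sl a b j (v i) := by
  unfold sl
  rw [dotProduct_sum]
  simp only [mul_sub, Finset.sum_sub_distrib, dotProduct_smul, smul_eq_mul]
  rw [← Finset.sum_mul, h1, one_mul]

theorem Poly.nonneg {v : Fin n → Fin d → ℝ} {a : Fin f → Fin d → ℝ} {b : Fin f → ℝ}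
    (h : Poly v a b) (j : Fin f) (i : Fin n) : 0 ≤ sl a b j (v i) :=
  (h.hull (v i)).2 (subset_convexHull ℝ _ ⟨i, rfl⟩) j

/-- the weights of a point in the hyperplane of `j` are supported on its vertices -/
theorem Poly.support {v : Fin n → Fin d → ℝ} {a : Fin f → Fin d → ℝ} {b : Fin f → ℝ}
    (h : Poly v a b) (j : Fin f) (w : Fin n → ℝ) (h0 : ∀ i, 0 ≤ w i) (h1 : ∑ i, w i = 1)
    (hx : sl a b j (∑ i, w i • v i) = 0) (i : Fin n) (hi : w i ≠ 0) : sl a b j (v i) = 0 := by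
  rw [sl_sum a b j v w h1] at hx
  have := (Finset.sum_eq_zero_iff_of_nonneg (fun i _ => mul_nonneg (h0 i) (h.nonneg j i))).1 hx i
    (Finset.mem_univ i)
  rcases mul_eq_zero.1 this with h' | h'
  · exact absurd h' hi
  · exact h'

/-- small steps: if `λ ≥ 0` at the tight inequalities then one can move -/
theorem small_step (a : Fin f → Fin d → ℝ) (b : Fin f → ℝ) (z y : Fin d → ℝ)
    (hz : ∀ j, 0 ≤ sl a b j z) (hy : ∀ j, sl a b j z = 0 → a j ⬝ᵥ y ≤ 0) :
    ∃ ε : ℝ, 0 < ε ∧ ∀ j, 0 ≤ sl a b j (z + ε • y) := by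
  classical
  -- choose for each j an ε_j
  have key : ∀ j, ∃ ε : ℝ, 0 < ε ∧ ∀ δ, 0 < δ → δ ≤ ε → 0 ≤ sl a b j (z + δ • y) := by
    intro j
    rcases (hz j).lt_or_eq with h | h
    · refine ⟨sl a b j z / (|a j ⬝ᵥ y| + 1), by positivity, fun δ hδ hle => ?_⟩
      rw [sl_add, dotProduct_smul, smul_eq_mul]
      have h1 : δ * (|a j ⬝ᵥ y| + 1) ≤ sl a b j z := by
        rwa [le_div_iff₀ (by positivity)] at hle
      have h2 : δ * (a j ⬝ᵥ y) ≤ δ * (|a j ⬝ᵥ y| + 1) :=
        mul_le_mul_of_nonneg_left (by linarith [le_abs_self (a j ⬝ᵥ y)]) hδ.le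
      linarith
    · refine ⟨1, one_pos, fun δ hδ _ => ?_⟩
      rw [sl_add, dotProduct_smul, smul_eq_mul, ← h]
      have := mul_nonpos_of_nonneg_of_nonpos hδ.le (hy j h.symm)
      linarith
  choose ε hε hδ using key
  by_cases hf : Nonempty (Fin f)
  · obtain ⟨j0, -, hj0⟩ := Finset.exists_min_image (Finset.univ : Finset (Fin f)) ε
      ⟨hf.some, Finset.mem_univ _⟩
    exact ⟨ε j0, hε j0, fun j => hδ j _ (hε j0) (hj0 j (Finset.mem_univ j))⟩
  · exact ⟨1, one_pos, fun j => absurd ⟨j⟩ hf⟩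

/-- incomparability of the vertices -/
theorem Poly.incomp {v : Fin n → Fin d → ℝ} {a : Fin f → Fin d → ℝ} {b : Fin f → ℝ}
    (h : Poly v a b) (i k : Fin n) (hik : ∀ j, sl a b j (v i) = 0 → sl a b j (v k) = 0) :
    i = k := by
  by_contra hne
  have hP : ∀ j, 0 ≤ sl a b j (v i) := fun j => h.nonneg j i
  have hz : ∀ j, sl a b j (v i) = 0 → a j ⬝ᵥ (v k - v i) = 0 := by
    intro j hj
    have h1 := hik j hj
    unfold sl at hj h1
    rw [dotProduct_sub]; linarith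
  obtain ⟨ε, hε, h1⟩ := small_step a b (v i) (v k - v i) hP (fun j hj => (hz j hj).le)
  obtain ⟨δ, hδ, h2⟩ := small_step a b (v i) (-(v k - v i)) hP (fun j hj => by
    rw [dotProduct_neg, hz j hj, neg_zero])
  have hx1 : v i + ε • (v k - v i) ∈ convexHull ℝ (Set.range v) := (h.hull _).1 h1
  have hx2 : v i + δ • (-(v k - v i)) ∈ convexHull ℝ (Set.range v) := (h.hull _).1 h2
  have hext := (h.vert i).2 hx1 hx2 ⟨δ / (ε + δ), ε / (ε + δ), by positivity, by positivity, by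
    field_simp; ring, by
    ext t
    simp only [Pi.add_apply, Pi.smul_apply, Pi.sub_apply, Pi.neg_apply, smul_eq_mul]
    field_simp
    ring⟩
  have h3 : ε • (v k - v i) = 0 := by
    have h3' : v i + ε • (v k - v i) = v i + 0 := by rw [add_zero]; exact hext
    exact add_left_cancel h3'
  rcases smul_eq_zero.1 h3 with h4 | h4
  · exact hε.ne' h4
  · exact hne (h.vinj (sub_eq_zero.1 h4)).symm

/-- the vertices of `C` at which `j` is tight -/
def cut (v : Fin n → Fin d → ℝ) (a : Fin f → Fin d → ℝ) (b : Fin f → ℝ) (C : Set (Fin n))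
    (j : Fin f) : Set (Fin n) := {k | k ∈ C ∧ sl a b j (v k) = 0}

/-- `C` is the vertex set of a face -/
def Closed (v : Fin n → Fin d → ℝ) (a : Fin f → Fin d → ℝ) (b : Fin f → ℝ) (C : Set (Fin n)) :
    Prop := ∀ k, (∀ j, (∀ i ∈ C, sl a b j (v i) = 0) → sl a b j (v k) = 0) → k ∈ C

theorem closed_univ (v : Fin n → Fin d → ℝ) (a : Fin f → Fin d → ℝ) (b : Fin f → ℝ) :
    Closed v a b Set.univ := fun k _ => Set.mem_univ k

theorem closed_cut {v : Fin n → Fin d → ℝ} {a : Fin f → Fin d → ℝ} {b : Fin f → ℝ}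
    {C : Set (Fin n)} (hC : Closed v a b C) (j : Fin f) : Closed v a b (cut v a b C j) := by
  intro k hk
  refine ⟨hC k fun j' hj' => hk j' fun i hi => hj' i hi.1, hk j fun i hi => hi.2⟩

theorem W_mono (v : Fin n → Fin d → ℝ) {C D : Set (Fin n)} (h : D ⊆ C) : W v D ≤ W v C :=
  vectorSpan_mono ℝ (Set.image_mono h)

theorem sub_mem_W (v : Fin n → Fin d → ℝ) {C : Set (Fin n)} {i k : Fin n} (hi : i ∈ C)
    (hk : k ∈ C) : v k - v i ∈ W v C :=
  vsub_mem_vectorSpan ℝ (Set.mem_image_of_mem v hk) (Set.mem_image_of_mem v hi)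

/-- a functional which is constant on `C` vanishes on `W C` -/
theorem dot_eq_zero {v : Fin n → Fin d → ℝ} {a : Fin f → Fin d → ℝ} {b : Fin f → ℝ}
    {C : Set (Fin n)} (j : Fin f) (hj : ∀ i ∈ C, sl a b j (v i) = 0) (y : Fin d → ℝ)
    (hy : y ∈ W v C) : a j ⬝ᵥ y = 0 := by
  unfold W vectorSpan at hy
  refine Submodule.span_induction (p := fun y _ => a j ⬝ᵥ y = 0) ?_ ?_ ?_ ?_ hy
  · rintro _ ⟨_, ⟨i, hi, rfl⟩, _, ⟨k, hk, rfl⟩, rfl⟩
    have h1 := hj i hi
    have h2 := hj k hk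
    unfold sl at h1 h2
    simp only [vsub_eq_sub, dotProduct_sub]
    linarith
  · simp
  · intro x y _ _ hx hy
    rw [dotProduct_add, hx, hy, add_zero]
  · intro c x _ hx
    rw [dotProduct_smul, hx, smul_zero]

/-- combinations with weights supported on `D` differ by elements of `W D` -/
theorem comb_mem {v : Fin n → Fin d → ℝ} {D : Set (Fin n)} (w w' : Fin n → ℝ)
    (hw : ∀ i, w i ≠ 0 → i ∈ D) (hw' : ∀ i, w' i ≠ 0 → i ∈ D) (h1 : ∑ i, w i = 1)
    (h1' : ∑ i, w' i = 1) (i0 : Fin n) (hi0 : i0 ∈ D) :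
    ∑ i, w i • v i - ∑ i, w' i • v i ∈ W v D := by
  have h : ∀ (u : Fin n → ℝ), (∀ i, u i ≠ 0 → i ∈ D) → ∑ i, u i = 1 →
      ∑ i, u i • v i - v i0 ∈ W v D := by
    intro u hu hu1
    have : ∑ i, u i • v i - v i0 = ∑ i, u i • (v i - v i0) := by
      simp only [smul_sub, Finset.sum_sub_distrib]
      rw [← Finset.sum_smul, hu1, one_smul]
    rw [this]
    refine Submodule.sum_mem _ fun i _ => ?_
    by_cases hi : u i = 0
    · rw [hi, zero_smul]; exact Submodule.zero_mem _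
    · exact Submodule.smul_mem _ _ (sub_mem_W v hi0 (hu i hi))
  have := Submodule.sub_mem _ (h w hw h1) (h w' hw' h1')
  rwa [sub_sub_sub_cancel_right] at this

end Pool.Agent.NH72.PSD
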