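import Pool.Agent.NH72.PSD.Cap
import Pool.Agent.NH72.PSD.Flag

/-!
# The bound `2 ^ d` for polytopes with a slack matrix which is congruent to one modulo four
-/

namespace Pool.Agent.NH72.PSD

open Matrix Finset Module

variable {d n f : ℕ}

theorem det_submatrix_zero {ι κ : Type*} [Fintype ι] [Fintype κ] [DecidableEq ι] [DecidableEq κ]
    (T : Matrix ι κ ℝ) (r : ℕ) (hT : T.rank ≤ r) (ρ : Fin (r + 1) → ι) (γ : Fin (r + 1) → κ) :
    (T.submatrix ρ γ).det = 0 := by
  by_contra hne
  have h1 : (T.submatrix ρ γ).rank = r + 1 := by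
    rw [Matrix.rank_of_isUnit _ ((Matrix.isUnit_iff_isUnit_det _).2 (isUnit_iff_ne_zero.2 hne))]
    simp
  have h2 : T.submatrix ρ γ = (1 : Matrix ι ι ℝ).submatrix ρ id * T *
      (1 : Matrix κ κ ℝ).submatrix id γ := by
    ext x y
    simp [Matrix.mul_apply, Matrix.one_apply]
  have h3 : (T.submatrix ρ γ).rank ≤ T.rank := by
    rw [h2]
    exact (Matrix.rank_mul_le_left _ _).trans (Matrix.rank_mul_le_right _ _)
  omega

/-- All that is used about the facets. -/
structure FacetData (v : Fin n → Fin d → ℝ) (a : Fin f → Fin d → ℝ) (b : Fin f → ℝ) : Prop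
    extends Poly v a b where
  full : finrank ℝ (W v Set.univ) = d
  ne : ∀ j, ∃ i, sl a b j (v i) = 0
  dim : ∀ j, finrank ℝ (W v {i | sl a b j (v i) = 0}) + 1 = d
  inj : ∀ j j', (∀ i, sl a b j (v i) = 0 ↔ sl a b j' (v i) = 0) → j = j'

theorem FacetData.incomp' {v : Fin n → Fin d → ℝ} {a : Fin f → Fin d → ℝ} {b : Fin f → ℝ}
    (h : FacetData v a b) (j j' : Fin f)
    (hj : ∀ i, sl a b j (v i) = 0 → sl a b j' (v i) = 0) : j = j' := by
  apply h.inj
  intro k
  refine ⟨hj k, fun hk => ?_⟩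
  obtain ⟨i, hi⟩ := h.ne j
  have hle : W v {i | sl a b j (v i) = 0} ≤ W v {i | sl a b j' (v i) = 0} :=
    W_mono v fun i hi => hj i hi
  have heq : W v {i | sl a b j (v i) = 0} = W v {i | sl a b j' (v i) = 0} := by
    refine Submodule.eq_of_le_of_finrank_eq hle ?_
    have h1 := h.dim j
    have h2 := h.dim j'
    omega
  have h1 : v k - v i ∈ W v {i | sl a b j (v i) = 0} := by
    rw [heq]
    exact sub_mem_W v (hj i hi) hk
  have h2 := dot_eq_zero (a := a) (b := b) j (fun i hi => hi) _ h1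
  unfold sl at hi ⊢
  rw [dotProduct_sub] at h2
  linarith

theorem FacetData.miss {v : Fin n → Fin d → ℝ} {a : Fin f → Fin d → ℝ} {b : Fin f → ℝ}
    (h : FacetData v a b) (j : Fin f) : ∃ i, sl a b j (v i) ≠ 0 := by
  by_contra hcon
  push Not at hcon
  have h1 : {i | sl a b j (v i) = 0} = Set.univ := Set.eq_univ_of_forall hcon
  have h2 := h.dim j
  rw [h1, h.full] at h2
  omega

theorem main {v : Fin n → Fin d → ℝ} {a : Fin f → Fin d → ℝ} {b : Fin f → ℝ} (hd : 1 ≤ d)
    (h : FacetData v a b) (R : Subring ℝ) (φ : R →+* ZMod 4) (T : Matrix (Fin n) (Fin f) ℝ)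
    (h0 : ∀ i j, T i j = 0 ↔ sl a b j (v i) = 0)
    (hR : ∀ i j, T i j ≠ 0 → ∃ hm : T i j ∈ R, φ ⟨T i j, hm⟩ = 1)
    (hrank : T.rank ≤ d + 1) : n ≤ 2 ^ d ∧ f ≤ 2 ^ d := by
  classical
  let E : Matrix (Fin n) (Fin f) (ZMod 4) := Matrix.of fun i j => if T i j = 0 then 0 else 1
  have hmem : ∀ i j, T i j ∈ R := by
    intro i j
    by_cases hz : T i j = 0
    · rw [hz]; exact R.zero_mem
    · exact (hR i j hz).1
  let TR : Matrix (Fin n) (Fin f) R := Matrix.of fun i j => ⟨T i j, hmem i j⟩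
  have hE : ∀ i j, φ (TR i j) = E i j := by
    intro i j
    by_cases hz : T i j = 0
    · have : TR i j = 0 := Subtype.ext hz
      rw [this, map_zero]
      simp [E, hz]
    · obtain ⟨hm, h1⟩ := hR i j hz
      have : TR i j = ⟨T i j, hm⟩ := rfl
      rw [this, h1]
      simp [E, hz]
  have hE0 : ∀ i j, E i j = 0 ↔ sl a b j (v i) = 0 := by
    intro i j
    rw [← h0]
    simp only [E, Matrix.of_apply]
    split_ifs with hz
    · simp [hz]
    · simp only [hz, iff_false]; decide
  have hE1 : ∀ i j, sl a b j (v i) ≠ 0 → E i j = 1 := by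
    intro i j hne
    simp only [E, Matrix.of_apply]
    rw [if_neg]
    rwa [h0]
  have h01 : ∀ i j, E i j = 0 ∨ E i j = 1 := by
    intro i j
    simp only [E, Matrix.of_apply]
    split_ifs
    · left; rfl
    · right; rfl
  have hminor : ∀ (ρ : Fin (d + 2) → Fin n) (γ : Fin (d + 2) → Fin f),
      (E.submatrix ρ γ).det = 0 := by
    intro ρ γ
    have h1 := det_submatrix_zero T (d + 1) hrank ρ γ
    have h2 : (TR.submatrix ρ γ).det = 0 := by
      have h3 : R.subtype (TR.submatrix ρ γ).det = (T.submatrix ρ γ).det := by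
        rw [RingHom.map_det]
        congr 1
      rw [h1] at h3
      exact Subtype.ext h3
    have h4 : φ (TR.submatrix ρ γ).det = (E.submatrix ρ γ).det := by
      rw [RingHom.map_det]
      congr 1
      ext x y
      simp only [RingHom.mapMatrix_apply, Matrix.map_apply, Matrix.submatrix_apply]
      exact hE _ _
    rw [← h4, h2, map_zero]
  -- there is a vertex
  have hn : Nonempty (Fin n) := by
    by_contra hne
    have h1 : (Set.univ : Set (Fin n)) = ∅ := by
      ext k; exact absurd ⟨k⟩ hne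
    have h2 := h.full
    unfold W at h2
    rw [h1, Set.image_empty, vectorSpan_empty, finrank_bot] at h2
    omega
  obtain ⟨ρ, γ, hρ, hγ⟩ := full_flag h.toPoly hd h.full hn.some
  constructor
  · have := cap_bound E h01 hminor
      (fun i k hik => h.toPoly.incomp i k fun j hj => (hE0 k j).1 (hik j ((hE0 i j).2 hj)))
      (fun i => (exists_miss h.toPoly hd h.full i).imp fun j hj => hE1 i j hj) ρ γ
      (fun l m hlm => (hE0 _ _).2 (hγ l m hlm)) (fun l => hE1 _ _ (hρ l))
    simpa using this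
  · have := cap_bound Eᵀ (fun j i => h01 i j)
      (fun ρ' γ' => by
        have h1 := hminor γ' ρ'
        rw [← Matrix.det_transpose] at h1
        exact h1)
      (fun j k hjk => h.incomp' j k fun i hi => (hE0 i k).1 (hjk i ((hE0 i j).2 hi)))
      (fun j => (h.miss j).imp fun i hi => hE1 i j hi) (γ ∘ Fin.rev) (ρ ∘ Fin.rev)
      (fun l m hlm => (hE0 _ _).2 (hγ _ _ (Fin.rev_lt_rev.2 hlm)))
      (fun l => hE1 _ _ (hρ _))
    simpa using this

/-- the slack matrix has rank at most `d + 1` -/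
theorem rank_slack (v : Fin n → Fin d → ℝ) (a : Fin f → Fin d → ℝ) (b : Fin f → ℝ)
    (r : Fin n → ℝ) (c : Fin f → ℝ) :
    (Matrix.of fun i j => r i * c j * sl a b j (v i) : Matrix (Fin n) (Fin f) ℝ).rank ≤ d + 1 := by
  have h1 : (Matrix.of fun i j => r i * c j * sl a b j (v i) : Matrix (Fin n) (Fin f) ℝ) =
      (Matrix.of fun i (x : Fin d ⊕ Unit) => Sum.elim (fun t => - (r i * v i t)) (fun _ => r i) x) *
      (Matrix.of fun (x : Fin d ⊕ Unit) j => Sum.elim (fun t => c j * a j t) (fun _ => c j * b j) x) := by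
    ext i j
    rw [Matrix.mul_apply, Fintype.sum_sum_type]
    simp only [Matrix.of_apply, Sum.elim_inl, Sum.elim_inr, Finset.univ_unique,
      Finset.sum_singleton, sl, dotProduct]
    rw [mul_sub, Finset.mul_sum, sub_eq_neg_add, ← Finset.sum_neg_distrib]
    congr 1
    · exact Finset.sum_congr rfl fun t _ => by ring
    · ring
  rw [h1]
  refine (Matrix.rank_mul_le_left _ _).trans ((Matrix.rank_le_card_width _).trans ?_)
  simp

end Pool.Agent.NH72.PSD
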